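import Pool.Agent.L7h43.QU.Stm

/-!
# Project QU: part EDGE (helper73 for helper43)
-/

set_option autoImplicit false

namespace Pool.Agent.L7h73.QU

open MvPolynomial Pool.Agent.L7h43.QU
open Pool.Agent.L7h52.NQ (vec vec_zero vec_one vec_two)

/-- the first axis -/
noncomputable def ax0 (F : Type) [Field F] : MvPolynomial (Fin 2) F →ₐ[F] Polynomial F :=
  aeval (fun i => if i = 0 then Polynomial.X else 0)

/-- the second axis -/
noncomputable def ax1 (F : Type) [Field F] : MvPolynomial (Fin 2) F →ₐ[F] Polynomial F :=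
  aeval (fun i => if i = 0 then 0 else Polynomial.X)

theorem fin2_ext {m m' : Fin 2 →₀ ℕ} : m = m' ↔ m 0 = m' 0 ∧ m 1 = m' 1 := by
  rw [Finsupp.ext_iff, Fin.forall_fin_two]

theorem ax0_coeff (F : Type) [Field F] (P : MvPolynomial (Fin 2) F) (p : ℕ) :
    (ax0 F P).coeff p = P.coeff (Finsupp.single 0 p) := by
  classical
  induction P using MvPolynomial.induction_on' with
  | add P Q h1 h2 => rw [map_add, Polynomial.coeff_add, h1, h2, coeff_add]
  | monomial m c =>
    unfold ax0
    rw [aeval_monomial, coeff_monomial, Finsupp.prod_fintype _ _ (fun i => pow_zero _),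
      Fin.prod_univ_two, if_pos rfl, if_neg (by decide)]
    have h2 : m = Finsupp.single 0 p ↔ m 0 = p ∧ m 1 = 0 := by
      rw [fin2_ext]
      simp
    change (Polynomial.C c * _).coeff p = _
    by_cases h1 : m 1 = 0
    · rw [h1, pow_zero, mul_one, Polynomial.coeff_C_mul, Polynomial.coeff_X_pow]
      simp only [h2, h1, and_true]
      by_cases h3 : p = m 0
      · rw [if_pos h3, if_pos h3.symm, mul_one]
      · rw [if_neg h3, if_neg (fun h => h3 h.symm), mul_zero]
    · rw [zero_pow h1, mul_zero, mul_zero, Polynomial.coeff_zero, if_neg]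
      rw [h2]
      exact fun h => h1 h.2

theorem ax1_coeff (F : Type) [Field F] (P : MvPolynomial (Fin 2) F) (p : ℕ) :
    (ax1 F P).coeff p = P.coeff (Finsupp.single 1 p) := by
  classical
  induction P using MvPolynomial.induction_on' with
  | add P Q h1 h2 => rw [map_add, Polynomial.coeff_add, h1, h2, coeff_add]
  | monomial m c =>
    unfold ax1
    rw [aeval_monomial, coeff_monomial, Finsupp.prod_fintype _ _ (fun i => pow_zero _),
      Fin.prod_univ_two, if_pos rfl, if_neg (by decide)]
    have h2 : m = Finsupp.single 1 p ↔ m 0 = 0 ∧ m 1 = p := by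
      rw [fin2_ext]
      simp
    change (Polynomial.C c * _).coeff p = _
    by_cases h1 : m 0 = 0
    · rw [h1, pow_zero, one_mul, Polynomial.coeff_C_mul, Polynomial.coeff_X_pow]
      simp only [h2, h1, true_and]
      by_cases h3 : p = m 1
      · rw [if_pos h3, if_pos h3.symm, mul_one]
      · rw [if_neg h3, if_neg (fun h => h3 h.symm), mul_zero]
    · rw [zero_pow h1, zero_mul, mul_zero, Polynomial.coeff_zero, if_neg]
      rw [h2]
      exact fun h => h1 h.1

theorem ax1_const (F : Type) [Field F] (P : MvPolynomial (Fin 2) F) :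
    (ax1 F P).coeff 0 = constantCoeff P := by
  rw [ax1_coeff, Finsupp.single_zero, constantCoeff_eq]

theorem zmod3 (l : ZMod 3) : l = 0 ∨ l = 1 ∨ l = 2 := by
  revert l
  decide

theorem map_vec {R S : Type*} (f : R → S) (a b c : R) (l : ZMod 3) :
    f (vec a b c l) = vec (f a) (f b) (f c) l := by
  rcases zmod3 l with rfl | rfl | rfl
  · rw [vec_zero, vec_zero]
  · rw [vec_one, vec_one]
  · rw [vec_two, vec_two]

theorem map_dD {R S : Type*} [CommRing R] [CommRing S] (f : R →+* S) (x w : R) :
    f (dD x w) = dD (f x) (f w) := by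
  unfold dD
  simp only [map_pow, map_mul, map_sub, map_one, map_ofNat]

theorem map_dA {R S : Type*} [CommRing R] [CommRing S] (f : R →+* S) (x w : R) :
    f (dA x w) = dA (f x) (f w) := by
  unfold dA
  simp only [map_pow, map_mul, map_sub, map_add, map_one, map_ofNat]

theorem map_dB {R S : Type*} [CommRing R] [CommRing S] (f : R →+* S) (x w : R) :
    f (dB x w) = dB (f x) (f w) := by
  unfold dB
  simp only [map_pow, map_mul, map_sub, map_add, map_one, map_ofNat]

theorem ax0_pu (F : Type) [Field F] (v : MvPolynomial (Fin 2) F) (l : ZMod 3) :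
    ax0 F (pu v l) = pt0 F l := by
  have h0 : ax0 F (X 0) = Polynomial.X := by
    unfold ax0
    rw [aeval_X, if_pos rfl]
  have h1 : ax0 F (X 1 * v) = 0 := by
    rw [map_mul]
    have : ax0 F (X 1) = 0 := by
      unfold ax0
      rw [aeval_X, if_neg (by decide)]
    rw [this, zero_mul]
  have e0 : ax0 F (dD (X 0) (X 1 * v)) = dD Polynomial.X 0 := by
    have h := map_dD (ax0 F : MvPolynomial (Fin 2) F →+* Polynomial F) (X 0) (X 1 * v)
    rw [RingHom.coe_coe, h0, h1] at h
    exact h
  have e1 : ax0 F (dA (X 0) (X 1 * v)) = dA Polynomial.X 0 := by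
    have h := map_dA (ax0 F : MvPolynomial (Fin 2) F →+* Polynomial F) (X 0) (X 1 * v)
    rw [RingHom.coe_coe, h0, h1] at h
    exact h
  have e2 : ax0 F (dB (X 0) (X 1 * v)) = dB Polynomial.X 0 := by
    have h := map_dB (ax0 F : MvPolynomial (Fin 2) F →+* Polynomial F) (X 0) (X 1 * v)
    rw [RingHom.coe_coe, h0, h1] at h
    exact h
  unfold pu pt0
  rw [map_vec (ax0 F), e0, e1, e2]

theorem ax1_pu (F : Type) [Field F] (v : MvPolynomial (Fin 2) F) (l : ZMod 3) :
    ax1 F (pu v l) = (pt1 F l).comp (Polynomial.X * ax1 F v) := by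
  have h0 : ax1 F (X 0) = 0 := by
    unfold ax1
    rw [aeval_X, if_pos rfl]
  have h1 : ax1 F (X 1 * v) = Polynomial.X * ax1 F v := by
    rw [map_mul]
    congr 1
    unfold ax1
    rw [aeval_X, if_neg (by decide)]
  have hc : ∀ f : Polynomial F, f.comp (Polynomial.X * ax1 F v) =
      Polynomial.compRingHom (Polynomial.X * ax1 F v) f := fun f => rfl
  have h2 : Polynomial.compRingHom (Polynomial.X * ax1 F v) Polynomial.X =
      Polynomial.X * ax1 F v := by
    rw [← hc, Polynomial.X_comp]
  have e0 : ax1 F (dD (X 0) (X 1 * v)) = dD 0 (Polynomial.X * ax1 F v) := by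
    have h := map_dD (ax1 F : MvPolynomial (Fin 2) F →+* Polynomial F) (X 0) (X 1 * v)
    rw [RingHom.coe_coe, h0, h1] at h
    exact h
  have e1 : ax1 F (dA (X 0) (X 1 * v)) = dA 0 (Polynomial.X * ax1 F v) := by
    have h := map_dA (ax1 F : MvPolynomial (Fin 2) F →+* Polynomial F) (X 0) (X 1 * v)
    rw [RingHom.coe_coe, h0, h1] at h
    exact h
  have e2 : ax1 F (dB (X 0) (X 1 * v)) = dB 0 (Polynomial.X * ax1 F v) := by
    have h := map_dB (ax1 F : MvPolynomial (Fin 2) F →+* Polynomial F) (X 0) (X 1 * v)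
    rw [RingHom.coe_coe, h0, h1] at h
    exact h
  unfold pu pt1
  rw [map_vec (ax1 F), hc, map_vec (Polynomial.compRingHom (Polynomial.X * ax1 F v)), map_dD,
    map_dA, map_dB, map_zero, h2, e0, e1, e2]

/-- the leading coefficient of a composition -/
theorem coeff_comp_aux {F : Type} [Field F] (R u : Polynomial F) (β : ℕ)
    (hR : ∀ k < β, R.coeff k = 0) :
    (R.comp (Polynomial.X * u)).coeff β = R.coeff β * u.coeff 0 ^ β := by
  obtain ⟨S, rfl⟩ := (Polynomial.X_pow_dvd_iff).2 hR
  rw [Polynomial.mul_comp, Polynomial.X_pow_comp, mul_pow, mul_assoc]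
  have h1 := Polynomial.coeff_X_pow_mul (u ^ β * S.comp (Polynomial.X * u)) β 0
  have h2 := Polynomial.coeff_X_pow_mul S β 0
  rw [zero_add] at h1 h2
  rw [h1, h2, Polynomial.mul_coeff_zero, Polynomial.coeff_zero_eq_eval_zero,
    Polynomial.coeff_zero_eq_eval_zero (S.comp _), Polynomial.eval_pow, Polynomial.eval_comp,
    Polynomial.eval_mul, Polynomial.eval_X, zero_mul, ← Polynomial.coeff_zero_eq_eval_zero S,
    ← Polynomial.coeff_zero_eq_eval_zero u]
  ring

/-- EDGE -/
theorem s_EDGE (hREFL : S_REFL) : S_EDGE := by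
  intro F _ _ e g v hg hG hdeg
  refine ⟨?_, ?_⟩
  · intro p
    rw [← ax0_coeff]
    congr 1
    unfold pull
    rw [← AlgHom.comp_apply, comp_aeval]
    congr 2
    funext l
    exact ax0_pu F v l
  · have h1 : ax1 F (aeval (pu v) g) = (aeval (pt1 F) g).comp (Polynomial.X * ax1 F v) := by
      have hc : ∀ f : Polynomial F, f.comp (Polynomial.X * ax1 F v) =
          Polynomial.aeval (Polynomial.X * ax1 F v) f := fun f => rfl
      rw [hc, ← AlgHom.comp_apply, comp_aeval, ← AlgHom.comp_apply, comp_aeval]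
      congr 2
      funext l
      rw [ax1_pu, hc]
    rw [← ax1_coeff, h1, hREFL F e g hg, Polynomial.mul_comp, Polynomial.C_comp,
      Polynomial.coeff_C_mul, coeff_comp_aux, ax1_const, Polynomial.coeff_reflect,
      Polynomial.revAt_le (Nat.sub_le _ _), Nat.sub_sub_self hdeg]
    · rw [← mul_assoc]
      rfl
    · intro k hk
      rw [Polynomial.coeff_reflect, Polynomial.revAt_le (by omega)]
      apply Polynomial.coeff_eq_zero_of_natDegree_lt
      omega

end Pool.Agent.L7h73.QU
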