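import Pool.Agent.L7h43.QU.Stm

/-! Project QU (helper43), part MIN; adapted from the file L7h64/NQ/Min.lean of helper64. -/

set_option autoImplicit false
set_option linter.unusedVariables false

namespace Pool.Agent.L7h73.QU

open MvPolynomial Pool.Agent.TH603.EL Pool.Agent.L7h43.QU
open Pool.Agent.L7h52.NQ (vec mI th cst)

variable {F : Type} [Field F]

/-- **MIN** -/
theorem s_MIN : S_MIN := by
  intro F _ e g v hg hr h0
  classical
  have hs : g.support.Nonempty := by rwa [MvPolynomial.support_nonempty]
  obtain ⟨m0, hm0, hmin⟩ := Finset.exists_min_image g.support (fun m => (g.coeff m).order) hs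
  set a0 : ℝ := (g.coeff m0).order with ha0
  set W : (ZMod 3 →₀ ℕ) → MvPolynomial (Fin 2) F := fun m' => ∏ l, pu v l ^ m' l with hW
  set g' : MvPolynomial (ZMod 3) F := ∑ m' ∈ g.support, monomial m' ((g.coeff m').coeff a0) with hg'
  have hc : ∀ m', g'.coeff m' = (g.coeff m').coeff a0 := by
    intro m'
    rw [hg', coeff_sum]
    simp only [coeff_monomial]
    rw [Finset.sum_ite_eq']
    split_ifs with h
    · rfl
    · rw [notMem_support_iff.1 h, HahnSeries.coeff_zero]
  have hsup : ∀ m', g'.coeff m' ≠ 0 → g.coeff m' ≠ 0 := by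
    intro m' h h1
    apply h
    rw [hc, h1, HahnSeries.coeff_zero]
  have hE : ∀ m a, ((aeval (fun l => map (cst F) (pu v l)) g).coeff m).coeff a =
      ∑ m' ∈ g.support, (g.coeff m').coeff a * (W m').coeff m := by
    intro m a
    have h1 : aeval (fun l => map (cst F) (pu v l)) g =
        ∑ m' ∈ g.support, C (g.coeff m') * map (cst F) (W m') := by
      rw [aeval_def, eval₂_eq']
      apply Finset.sum_congr rfl
      intro m' _
      rw [hW]
      simp only [map_prod, map_pow]
      rfl
    rw [h1, coeff_sum]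
    simp only [coeff_C_mul, coeff_map]
    rw [HahnSeries.coeff_sum]
    apply Finset.sum_congr rfl
    intro m' _
    rw [mul_comm]
    unfold cst
    rw [HahnSeries.C_mul_eq_smul, HahnSeries.coeff_smul, smul_eq_mul, mul_comm]
  refine ⟨a0, g', ?_, ?_, ?_, ?_, ?_⟩
  · intro m' h
    exact hg (hsup m' h)
  · intro α hα
    exact hr α (mem_support_iff.2 (hsup α (mem_support_iff.1 hα)))
  · intro h
    have h1 := hc m0
    rw [h, coeff_zero] at h1
    have h2 : (g.coeff m0).coeff (g.coeff m0).order ≠ 0 :=
      HahnSeries.coeff_order_eq_zero.not.2 (mem_support_iff.1 hm0)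
    exact h2 h1.symm
  · intro m a h
    rw [hE] at h
    obtain ⟨m', hm', h1⟩ := Finset.exists_ne_zero_of_sum_ne_zero h
    exact (hmin m' hm').trans (HahnSeries.order_le_of_coeff_ne_zero (left_ne_zero_of_mul h1))
  · intro m
    rw [hE, hg', map_sum, coeff_sum]
    apply Finset.sum_congr rfl
    intro m' _
    rw [aeval_monomial, algebraMap_eq, coeff_C_mul, Finsupp.prod_fintype _ _ (fun _ => pow_zero _)]

end Pool.Agent.L7h73.QU
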